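import Pool.Agent.R90.IC.Defs

/-!
# The boundary of the box is covered (MP_59c536_co, piece BD)
-/

namespace Pool.Agent.R90.IC
namespace BD

theorem relA (u : Fin 4 → ℝ) (k : ℝ) :
    rel (pt u) (lA k) = u 3 ^ 2 - u 0 * u 1 - (u 2 - k) ^ 2 := by
  simp [rel, pt, lA]
  ring

theorem relB (u : Fin 4 → ℝ) (η : ℝ) :
    rel (pt u) (lB η) = u 0 + 2 * u 2 * η - u 1 * η ^ 2 := by
  simp [rel, pt, lB]
  ring

theorem claim (u : Fin 4 → ℝ) (k η : ℝ) (ht : 0 < u 1)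
    (h : (u 2 - k - u 1 * η) ^ 2 < 2 * k * (u 1 * η)) :
    0 < rel (pt u) (lA k) ∨ 0 < rel (pt u) (lB η) := by
  by_contra hc
  rw [not_or, not_lt, not_lt, relA, relB] at hc
  obtain ⟨h1, h2⟩ := hc
  have h3 : (u 0 + 2 * u 2 * η - u 1 * η ^ 2) * u 1 ≤ 0 :=
    mul_nonpos_of_nonpos_of_nonneg h2 ht.le
  have h4 := sq_nonneg (u 3)
  nlinarith

theorem aux1 (y i : ℝ) (h1 : i ≤ y) (h2 : y ≤ i + 1) (h3 : 1 ≤ i) :
    (y - i - 1 / 2) ^ 2 < 2 * i * (1 / 2) := by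
  nlinarith [mul_nonneg (sub_nonneg.2 h1) (sub_nonneg.2 h2)]

theorem aux2 (k b : ℝ) (hk : 1 ≤ k) (h0 : 0 < b) (h1 : b ≤ 1 / 2) :
    (k - k - b) ^ 2 < 2 * k * b := by
  have h2 : (k - k - b) ^ 2 = b * b := by ring
  have h3 : b * b ≤ 1 / 2 * b := mul_le_mul_of_nonneg_right h1 h0.le
  have h4 : 1 * b ≤ k * b := mul_le_mul_of_nonneg_right hk h0.le
  rw [h2]
  linarith

end BD

theorem bd : S_BD := by
  intro p m i j hi hip hjm u hu hnu
  obtain ⟨hs, ht1, ht2, hy1, hy2, hw⟩ := hu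
  have hp2 : (2 : ℝ) ≤ p := by
    have : 2 ≤ p := by omega
    exact_mod_cast this
  have hi1 : (1 : ℝ) ≤ i := by exact_mod_cast hi
  have hip' : (i : ℝ) + 1 ≤ p := by exact_mod_cast hip
  have hK : (1 : ℝ) ≤ KK p := by unfold KK; nlinarith
  have hKj : (1 : ℝ) ≤ KK p ^ j := one_le_pow₀ hK
  have hKj1 : (1 : ℝ) ≤ KK p ^ (j + 1) := one_le_pow₀ hK
  have hKm : KK p ^ (j + 1) ≤ KK p ^ m := pow_le_pow_right₀ hK (by omega)
  have hKm1 : (1 : ℝ) ≤ KK p ^ m := one_le_pow₀ hK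
  have hS : SS p m = KK p ^ m + 2 * (p : ℝ) ^ 2 + 1 := rfl
  have ht : 0 < u 1 := by linarith
  have hη : 0 < (KK p ^ (j + 1))⁻¹ := by positivity
  have hη1 : (KK p ^ (j + 1))⁻¹ ≤ 1 := inv_le_one_of_one_le₀ hKj1
  have hKη : KK p ^ (j + 1) * (KK p ^ (j + 1))⁻¹ = 1 := mul_inv_cancel₀ (by linarith)
  have hKη0 : KK p ^ j * (KK p ^ j)⁻¹ = 1 := mul_inv_cancel₀ (by linarith)
  have hb0 : 0 < u 1 * (KK p ^ (j + 1))⁻¹ := by positivity
  have hb1 : u 1 * (KK p ^ (j + 1))⁻¹ ≤ 1 / 2 := by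
    have h1 := mul_le_mul_of_nonneg_right ht2 hη.le
    have h2 : KK p ^ (j + 1) / 2 * (KK p ^ (j + 1))⁻¹ = 1 / 2 := by
      linear_combination hKη / 2
    linarith
  -- the conclusion from the claim
  have hcl : ∀ k l : ℕ, 1 ≤ k → k ≤ p → l < m →
      (u 2 - k - u 1 * (KK p ^ l)⁻¹) ^ 2 < 2 * k * (u 1 * (KK p ^ l)⁻¹) →
      (∃ k : ℕ, 1 ≤ k ∧ k ≤ p ∧ 0 < rel (pt u) (lA k)) ∨
      (∃ l : ℕ, l < m ∧ 0 < rel (pt u) (lB ((KK p ^ l)⁻¹))) := by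
    intro k l h1 h2 h3 h4
    rcases BD.claim u k _ ht h4 with h5 | h5
    · left; exact ⟨k, h1, h2, h5⟩
    · right; exact ⟨l, h3, h5⟩
  -- the cases
  have hSp : 0 < SS p m := by rw [hS]; positivity
  by_cases c1 : |u 0| < SS p m
  swap
  · have h1 : |u 0| = SS p m := le_antisymm hs (not_lt.1 c1)
    rcases abs_eq hSp.le |>.1 h1 with h2 | h2
    · right
      refine ⟨j + 1, hjm, ?_⟩
      rw [BD.relB, h2]
      have h3 : u 1 * (KK p ^ (j + 1))⁻¹ ^ 2 ≤ 1 / 2 := by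
        have : u 1 * (KK p ^ (j + 1))⁻¹ ^ 2
          = (u 1 * (KK p ^ (j + 1))⁻¹) * (KK p ^ (j + 1))⁻¹ := by ring
        rw [this]
        nlinarith
      have h4 : 0 ≤ 2 * u 2 * (KK p ^ (j + 1))⁻¹ := by
        have : 0 ≤ u 2 := by linarith
        positivity
      rw [hS]
      nlinarith [sq_nonneg (p : ℝ)]
    · left
      refine ⟨1, le_refl 1, by omega, ?_⟩
      rw [BD.relA, h2]
      push_cast
      have h3 : (u 2 - 1) ^ 2 ≤ (p : ℝ) ^ 2 := by nlinarith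
      have h4 : SS p m * (1 / 2) ≤ SS p m * u 1 :=
        mul_le_mul_of_nonneg_left (by linarith) hSp.le
      have h5 := sq_nonneg (u 3)
      have h6 : (p : ℝ) ^ 2 < SS p m * (1 / 2) := by rw [hS]; nlinarith
      nlinarith
  by_cases c2 : |u 3| < SS p m
  swap
  · have h1 : |u 3| = SS p m := le_antisymm hw (not_lt.1 c2)
    left
    refine ⟨1, le_refl 1, by omega, ?_⟩
    rw [BD.relA]
    push_cast
    have h2 : u 3 ^ 2 = SS p m ^ 2 := by rw [← h1, sq_abs]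
    have h3 : (u 2 - 1) ^ 2 ≤ (p : ℝ) ^ 2 := by nlinarith
    have h4 : u 0 * u 1 ≤ SS p m * (KK p ^ m / 2) := by
      have h5 : u 0 ≤ SS p m := (abs_le.1 hs).2
      have h6 : u 0 * u 1 ≤ SS p m * u 1 := mul_le_mul_of_nonneg_right h5 ht.le
      have h7 : SS p m * u 1 ≤ SS p m * (KK p ^ m / 2) :=
        mul_le_mul_of_nonneg_left (by linarith) hSp.le
      linarith
    have h8 : SS p m ^ 2 - SS p m * (KK p ^ m / 2)
        = SS p m * (KK p ^ m / 2 + 2 * (p : ℝ) ^ 2 + 1) := by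
      rw [hS]; ring
    have h9 : (p : ℝ) ^ 2 < SS p m * (KK p ^ m / 2 + 2 * (p : ℝ) ^ 2 + 1) := by
      have hpp := sq_nonneg (p : ℝ)
      have h10 : 1 ≤ SS p m := by rw [hS]; linarith
      have h11 : (1 : ℝ) * (KK p ^ m / 2 + 2 * (p : ℝ) ^ 2 + 1)
          ≤ SS p m * (KK p ^ m / 2 + 2 * (p : ℝ) ^ 2 + 1) :=
        mul_le_mul_of_nonneg_right h10 (by linarith)
      linarith
    linarith
  by_cases c3 : KK p ^ j / 2 < u 1
  swap
  · have h1 : u 1 = KK p ^ j / 2 := le_antisymm (not_lt.1 c3) ht1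
    apply hcl i j hi (by omega) (by omega)
    have h2 : u 1 * (KK p ^ j)⁻¹ = 1 / 2 := by rw [h1]; linear_combination hKη0 / 2
    rw [h2]
    exact BD.aux1 _ _ hy1 hy2 hi1
  by_cases c4 : u 1 < KK p ^ (j + 1) / 2
  swap
  · have h1 : u 1 = KK p ^ (j + 1) / 2 := le_antisymm ht2 (not_lt.1 c4)
    apply hcl i (j + 1) hi (by omega) hjm
    have h2 : u 1 * (KK p ^ (j + 1))⁻¹ = 1 / 2 := by rw [h1]; linear_combination hKη / 2
    rw [h2]
    exact BD.aux1 _ _ hy1 hy2 hi1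
  by_cases c5 : (i : ℝ) < u 2
  swap
  · have h1 : u 2 = i := le_antisymm (not_lt.1 c5) hy1
    apply hcl i (j + 1) hi (by omega) hjm
    rw [h1]
    exact BD.aux2 _ _ hi1 hb0 hb1
  by_cases c6 : u 2 < (i : ℝ) + 1
  swap
  · have h1 : u 2 = i + 1 := le_antisymm hy2 (not_lt.1 c6)
    apply hcl (i + 1) (j + 1) (by omega) hip hjm
    rw [h1]
    push_cast
    exact BD.aux2 _ _ (by linarith) hb0 hb1
  exact absurd ⟨c1, c3, c4, c5, c6, c2⟩ hnu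

end Pool.Agent.R90.IC
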