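import Mathlib

/-!
# Isotopy classes of an orientation class of lines (MP_59c536_co): definitions and pieces
-/

open Set Topology

namespace Pool.Agent.R90.IC

/-- Vectors of Plücker coordinates `(π01, π02, π03, π12, π13, π23)`. -/
abbrev P5 := EuclideanSpace ℝ (Fin 6)

/-- The Plücker form `π01 π23 - π02 π13 + π12 π03`. -/
def kl (x : P5) : ℝ := x 0 * x 5 - x 1 * x 4 + x 3 * x 2

/-- The bilinear form: `det [a; b; c; d]` in terms of the Plücker coordinates of the lines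
`ab` and `cd`. -/
def rel (x y : P5) : ℝ :=
  x 0 * y 5 - x 1 * y 4 + x 2 * y 3 + x 3 * y 2 - x 4 * y 1 + x 5 * y 0

/-- Families of `n` oriented lines (homogeneous Plücker coordinates). -/
def Conf (n : ℕ) : Set (Fin n → P5) := {L | ∀ i, L i ≠ 0 ∧ kl (L i) = 0}

/-- The orientation class of `σ`, in the unit sphere (rays = oriented lines). -/
def cls {ι : Type} (L : ι → P5) (σ : ι → SignType) : Set P5 :=
  {x | ‖x‖ = 1 ∧ kl x = 0 ∧ ∀ i, SignType.sign (rel x (L i)) = σ i}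

/-! ## Affine chart -/

/-- The point of the Klein quadric with affine coordinates `(s, t, y, w)`. -/
noncomputable def pt (u : Fin 4 → ℝ) : P5 :=
  !₂[1, -(u 0), u 2 - u 3, u 2 + u 3, u 1, -(u 0 * u 1 + u 2 ^ 2 - u 3 ^ 2)]

/-- The lines of the first kind. -/
noncomputable def lA (k : ℝ) : P5 := !₂[1, 0, k, k, 0, -k ^ 2]

/-- The lines of the second kind. -/
noncomputable def lB (η : ℝ) : P5 := !₂[0, η ^ 2, η, η, 1, 0]

/-- The ratio. -/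
noncomputable def KK (p : ℕ) : ℝ := 32 * (p : ℝ) ^ 2

/-- The size of the box. -/
noncomputable def SS (p m : ℕ) : ℝ := KK p ^ m + 2 * (p : ℝ) ^ 2 + 1

/-- Closed boxes in the affine chart. -/
def cbox (S t₁ t₂ y₁ y₂ : ℝ) : Set (Fin 4 → ℝ) :=
  {u | |u 0| ≤ S ∧ t₁ ≤ u 1 ∧ u 1 ≤ t₂ ∧ y₁ ≤ u 2 ∧ u 2 ≤ y₂ ∧ |u 3| ≤ S}

/-- Open boxes in the affine chart. -/
def obox (S t₁ t₂ y₁ y₂ : ℝ) : Set (Fin 4 → ℝ) :=
  {u | |u 0| < S ∧ t₁ < u 1 ∧ u 1 < t₂ ∧ y₁ < u 2 ∧ u 2 < y₂ ∧ |u 3| < S}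

/-! ## Statements of the pieces -/

/-- BD: every point of the boundary of the box `(i, j)` is on the wrong side of some line. -/
def S_BD : Prop :=
  ∀ (p m i j : ℕ), 1 ≤ i → i + 1 ≤ p → j + 1 < m →
    ∀ u ∈ cbox (SS p m) (KK p ^ j / 2) (KK p ^ (j + 1) / 2) i (i + 1),
      u ∉ obox (SS p m) (KK p ^ j / 2) (KK p ^ (j + 1) / 2) i (i + 1) →
      (∃ k : ℕ, 1 ≤ k ∧ k ≤ p ∧ 0 < rel (pt u) (lA k)) ∨
      (∃ l : ℕ, l < m ∧ 0 < rel (pt u) (lB ((KK p ^ l)⁻¹)))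

/-- IN: some point of the open box `(i, j)` is on the right side of all lines. -/
def S_IN : Prop :=
  ∀ (p m i j : ℕ), 1 ≤ i → i + 1 ≤ p → j + 1 < m →
    ∃ u ∈ obox (SS p m) (KK p ^ j / 2) (KK p ^ (j + 1) / 2) i (i + 1),
      (∀ k : ℕ, 1 ≤ k → k ≤ p → rel (pt u) (lA k) < 0) ∧
      (∀ l : ℕ, l < m → rel (pt u) (lB ((KK p ^ l)⁻¹)) < 0)

/-- TOP: boxes whose boundary misses the class, but which meet the class, give components. -/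
def S_TOP : Prop :=
  ∀ (ι : Type) (L : ι → P5) (κ : Type) [Fintype κ] (S t₁ t₂ y₁ y₂ : κ → ℝ),
    (Pairwise fun a b => Disjoint (obox (S a) (t₁ a) (t₂ a) (y₁ a) (y₂ a))
      (obox (S b) (t₁ b) (t₂ b) (y₁ b) (y₂ b))) →
    (∀ a, ∃ u ∈ obox (S a) (t₁ a) (t₂ a) (y₁ a) (y₂ a), ∀ i, rel (pt u) (L i) < 0) →
    (∀ a, ∀ u ∈ cbox (S a) (t₁ a) (t₂ a) (y₁ a) (y₂ a),
      u ∉ obox (S a) (t₁ a) (t₂ a) (y₁ a) (y₂ a) → ∃ i, 0 < rel (pt u) (L i)) →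
    (Fintype.card κ : ℕ∞) ≤ ENat.card (ConnectedComponents (cls L (fun _ => -1)))

/-- OP: the hypotheses of TOP, for one box, are stable under small changes of the lines. -/
def S_OP : Prop :=
  ∀ (n : ℕ) (L₀ : Fin n → P5) (S t₁ t₂ y₁ y₂ : ℝ),
    (∃ u ∈ obox S t₁ t₂ y₁ y₂, ∀ i, rel (pt u) (L₀ i) < 0) →
    (∀ u ∈ cbox S t₁ t₂ y₁ y₂, u ∉ obox S t₁ t₂ y₁ y₂ → ∃ i, 0 < rel (pt u) (L₀ i)) →
    ∀ᶠ L in 𝓝 L₀, (∃ u ∈ obox S t₁ t₂ y₁ y₂, ∀ i, rel (pt u) (L i) < 0) ∧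
      (∀ u ∈ cbox S t₁ t₂ y₁ y₂, u ∉ obox S t₁ t₂ y₁ y₂ → ∃ i, 0 < rel (pt u) (L i))

/-- The final statement. -/
def S_FIN : Prop :=
  ∀ (n : ℕ) (G : Set (Fin n → P5)), Conf n ⊆ closure (G ∩ Conf n) →
    ∃ L ∈ G ∩ Conf n, (∀ i j, i ≠ j → rel (L i) (L j) ≠ 0) ∧
      (((n / 2 - 1) * ((n + 1) / 2 - 1) : ℕ) : ℕ∞) ≤
        ENat.card (ConnectedComponents (cls L (fun _ => -1)))

end Pool.Agent.R90.IC
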