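import Pool.Agent.R90.IC.Defs

/-!
# Assembly of MP_59c536_co
-/

open Set Topology Filter

namespace Pool.Agent.R90.IC

namespace FinAux

lemma rel_AA (k k' : ℝ) : rel (lA k) (lA k') = -(k - k') ^ 2 := by
  simp [rel, lA]; ring

lemma rel_AB (k η : ℝ) : rel (lA k) (lB η) = 2 * k * η := by
  simp [rel, lA, lB]; ring

lemma rel_BA (k η : ℝ) : rel (lB η) (lA k) = 2 * k * η := by
  simp [rel, lA, lB]; ring

lemma rel_BB (η η' : ℝ) : rel (lB η) (lB η') = -(η - η') ^ 2 := by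
  simp [rel, lB]; ring

lemma kl_A (k : ℝ) : kl (lA k) = 0 := by simp [kl, lA]; ring

lemma kl_B (η : ℝ) : kl (lB η) = 0 := by simp [kl, lB]; ring

lemma lA_ne (k : ℝ) : lA k ≠ 0 := by
  intro h
  have := congrArg (fun x : P5 => x 0) h
  simp [lA] at this

lemma lB_ne (η : ℝ) : lB η ≠ 0 := by
  intro h
  have := congrArg (fun x : P5 => x 4) h
  simp [lB] at this

/-- The configuration. -/
noncomputable def L0 (n : ℕ) : Fin n → P5 := fun a =>
  if (a : ℕ) < n / 2 then lA (((a : ℕ) + 1 : ℕ) : ℝ)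
  else lB ((KK (n / 2) ^ ((a : ℕ) - n / 2))⁻¹)

lemma L0_conf (n : ℕ) : L0 n ∈ Conf n := by
  intro a
  unfold L0
  split_ifs
  · exact ⟨lA_ne _, kl_A _⟩
  · exact ⟨lB_ne _, kl_B _⟩

lemma KK_gt {p : ℕ} (hp : 1 ≤ p) : 1 < KK p := by
  unfold KK
  have : (1 : ℝ) ≤ p := by exact_mod_cast hp
  nlinarith

lemma L0_skew (n : ℕ) : ∀ i j, i ≠ j → rel (L0 n i) (L0 n j) ≠ 0 := by
  intro i j hij
  have hne : (i : ℕ) ≠ (j : ℕ) := fun h => hij (Fin.ext h)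
  have hi := i.2
  have hj := j.2
  have hp : 1 ≤ n / 2 := by omega
  have hK := KK_gt hp
  have hK0 : (0 : ℝ) < KK (n / 2) := by linarith
  unfold L0
  split_ifs with h1 h2 h2
  · rw [rel_AA]
    have : ((((i : ℕ) + 1 : ℕ) : ℝ) - (((j : ℕ) + 1 : ℕ) : ℝ)) ≠ 0 := by
      rw [sub_ne_zero]
      intro h
      apply hne
      have := Nat.cast_injective (R := ℝ) h
      omega
    have := pow_ne_zero 2 this
    exact neg_ne_zero.2 this
  · rw [rel_AB]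
    positivity
  · rw [rel_BA]
    positivity
  · rw [rel_BB]
    have : ((KK (n / 2) ^ ((i : ℕ) - n / 2))⁻¹ - (KK (n / 2) ^ ((j : ℕ) - n / 2))⁻¹) ≠ 0 := by
      rw [sub_ne_zero]
      intro h
      have h' := inv_injective h
      have := (pow_right_injective₀ hK0 hK.ne') h'
      omega
    have := pow_ne_zero 2 this
    exact neg_ne_zero.2 this

lemma continuous_rel {n : ℕ} (i j : Fin n) :
    Continuous (fun L : Fin n → P5 => rel (L i) (L j)) := by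
  unfold rel
  have h : ∀ (i : Fin n) (k : Fin 6), Continuous (fun L : Fin n → P5 => (L i) k) := by
    intro i k
    have h1 : Continuous (fun L : Fin n → P5 => L i) := continuous_apply i
    have h2 : Continuous (fun x : P5 => x k) := by fun_prop
    exact h2.comp h1
  have h0 := h i 0; have h1 := h i 1; have h2 := h i 2; have h3 := h i 3; have h4 := h i 4
  have h5 := h i 5
  have g0 := h j 0; have g1 := h j 1; have g2 := h j 2; have g3 := h j 3; have g4 := h j 4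
  have g5 := h j 5
  fun_prop

lemma skew_ev (n : ℕ) :
    ∀ᶠ L in 𝓝 (L0 n), ∀ i j, i ≠ j → rel (L i) (L j) ≠ 0 := by
  rw [eventually_all]
  intro i
  rw [eventually_all]
  intro j
  by_cases h : i = j
  · exact Eventually.of_forall fun L h' => absurd h h'
  · have := (continuous_rel i j).continuousAt.eventually_ne (L0_skew n i j h)
    filter_upwards [this] with L hL _ using hL

/-- The box of a pair. -/
lemma disj (p m : ℕ) :
    Pairwise fun a b : Fin (p - 1) × Fin (m - 1) =>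
      Disjoint (obox (SS p m) (KK p ^ (a.2 : ℕ) / 2) (KK p ^ ((a.2 : ℕ) + 1) / 2)
          ((((a.1 : ℕ) + 1 : ℕ)) : ℝ) (((((a.1 : ℕ) + 1 : ℕ)) : ℝ) + 1))
        (obox (SS p m) (KK p ^ (b.2 : ℕ) / 2) (KK p ^ ((b.2 : ℕ) + 1) / 2)
          ((((b.1 : ℕ) + 1 : ℕ)) : ℝ) (((((b.1 : ℕ) + 1 : ℕ)) : ℝ) + 1)) := by
  intro a b hab
  rw [Set.disjoint_left]
  intro u hu hv
  obtain ⟨-, h1, h2, h3, h4, -⟩ := hu
  obtain ⟨-, g1, g2, g3, g4, -⟩ := hv
  have hp : 1 ≤ p := by have := a.1.2; omega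
  have hK := KK_gt hp
  apply hab
  have e1 : (a.1 : ℕ) = b.1 := by
    have x1 : ((((a.1 : ℕ) + 1 : ℕ)) : ℝ) < ((((b.1 : ℕ) + 1 : ℕ)) : ℝ) + 1 := by linarith
    have x2 : ((((b.1 : ℕ) + 1 : ℕ)) : ℝ) < ((((a.1 : ℕ) + 1 : ℕ)) : ℝ) + 1 := by linarith
    have y1 : (a.1 : ℕ) + 1 < (b.1 : ℕ) + 1 + 1 := by exact_mod_cast x1
    have y2 : (b.1 : ℕ) + 1 < (a.1 : ℕ) + 1 + 1 := by exact_mod_cast x2
    omega
  have e2 : (a.2 : ℕ) = b.2 := by
    have x1 : KK p ^ (a.2 : ℕ) < KK p ^ ((b.2 : ℕ) + 1) := by linarith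
    have x2 : KK p ^ (b.2 : ℕ) < KK p ^ ((a.2 : ℕ) + 1) := by linarith
    have y1 := (pow_lt_pow_iff_right₀ hK).1 x1
    have y2 := (pow_lt_pow_iff_right₀ hK).1 x2
    omega
  exact Prod.ext (Fin.ext e1) (Fin.ext e2)

end FinAux

open FinAux

theorem fin_lem (hBD : S_BD) (hIN : S_IN) (hTOP : S_TOP) (hOP : S_OP) : S_FIN := by
  intro n G hG
  set p := n / 2 with hp
  set m := (n + 1) / 2 with hm
  have hpm : p + m = n := by omega
  -- members of the configuration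
  have hA : ∀ k : ℕ, 1 ≤ k → k ≤ p → ∃ i, L0 n i = lA (k : ℝ) := by
    intro k h1 h2
    refine ⟨⟨k - 1, by omega⟩, ?_⟩
    unfold L0
    rw [if_pos (by simp only; omega)]
    congr 2
    simp only
    omega
  have hB : ∀ l : ℕ, l < m → ∃ i, L0 n i = lB ((KK p ^ l)⁻¹) := by
    intro l hl
    refine ⟨⟨p + l, by omega⟩, ?_⟩
    unfold L0
    rw [if_neg (by simp only; omega)]
    congr 3
    simp only
    omega
  have hall : ∀ i, (∃ k : ℕ, 1 ≤ k ∧ k ≤ p ∧ L0 n i = lA (k : ℝ)) ∨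
      (∃ l : ℕ, l < m ∧ L0 n i = lB ((KK p ^ l)⁻¹)) := by
    intro i
    have hi := i.2
    by_cases h : (i : ℕ) < n / 2
    · left
      refine ⟨(i : ℕ) + 1, by omega, by omega, ?_⟩
      unfold L0
      rw [if_pos h]
    · right
      refine ⟨(i : ℕ) - n / 2, by omega, ?_⟩
      unfold L0
      rw [if_neg h]
  have hbox : ∀ᶠ L in 𝓝 (L0 n), ∀ a : Fin (p - 1) × Fin (m - 1),
      (∃ u ∈ obox (SS p m) (KK p ^ (a.2 : ℕ) / 2) (KK p ^ ((a.2 : ℕ) + 1) / 2)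
          ((((a.1 : ℕ) + 1 : ℕ)) : ℝ) (((((a.1 : ℕ) + 1 : ℕ)) : ℝ) + 1),
        ∀ i, rel (pt u) (L i) < 0) ∧
      (∀ u ∈ cbox (SS p m) (KK p ^ (a.2 : ℕ) / 2) (KK p ^ ((a.2 : ℕ) + 1) / 2)
          ((((a.1 : ℕ) + 1 : ℕ)) : ℝ) (((((a.1 : ℕ) + 1 : ℕ)) : ℝ) + 1),
        u ∉ obox (SS p m) (KK p ^ (a.2 : ℕ) / 2) (KK p ^ ((a.2 : ℕ) + 1) / 2)
          ((((a.1 : ℕ) + 1 : ℕ)) : ℝ) (((((a.1 : ℕ) + 1 : ℕ)) : ℝ) + 1) →
        ∃ i, 0 < rel (pt u) (L i)) := by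
    rw [eventually_all]
    intro a
    have ha1 := a.1.2
    have ha2 := a.2.2
    apply hOP
    · obtain ⟨u, hu, h1, h2⟩ := hIN p m ((a.1 : ℕ) + 1) a.2 (by omega) (by omega) (by omega)
      refine ⟨u, hu, fun i => ?_⟩
      rcases hall i with ⟨k, k1, k2, e⟩ | ⟨l, l1, e⟩
      · rw [e]; exact h1 k k1 k2
      · rw [e]; exact h2 l l1
    · intro u hu hu'
      rcases hBD p m ((a.1 : ℕ) + 1) a.2 (by omega) (by omega) (by omega) u hu hu' with
        ⟨k, k1, k2, h⟩ | ⟨l, l1, h⟩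
      · obtain ⟨i, hi⟩ := hA k k1 k2
        exact ⟨i, by rw [hi]; exact h⟩
      · obtain ⟨i, hi⟩ := hB l l1
        exact ⟨i, by rw [hi]; exact h⟩
  have hcl : L0 n ∈ closure (G ∩ Conf n) := hG (L0_conf n)
  rw [mem_closure_iff_frequently] at hcl
  obtain ⟨L, hL, hL1, hL2⟩ := (hcl.and_eventually ((skew_ev n).and hbox)).exists
  refine ⟨L, hL, hL1, ?_⟩
  have := hTOP (Fin n) L (Fin (p - 1) × Fin (m - 1)) (fun _ => SS p m)
    (fun a => KK p ^ (a.2 : ℕ) / 2) (fun a => KK p ^ ((a.2 : ℕ) + 1) / 2)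
    (fun a => ((((a.1 : ℕ) + 1 : ℕ)) : ℝ)) (fun a => ((((a.1 : ℕ) + 1 : ℕ)) : ℝ) + 1)
    (disj p m) (fun a => (hL2 a).1) (fun a => (hL2 a).2)
  simpa using this

end Pool.Agent.R90.IC
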