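import Pool.Agent.R90.IC.Defs

/-!
# IC-IN (MP_59c536_co): a point of the open box on the right side of all lines
-/

set_option autoImplicit false

namespace Pool.Agent.R90.IC

namespace InAux

lemma rel_lA (u : Fin 4 → ℝ) (k : ℝ) :
    rel (pt u) (lA k) = u 3 ^ 2 - u 0 * u 1 - (u 2 - k) ^ 2 := by
  simp [rel, pt, lA]
  ring

lemma rel_lB (u : Fin 4 → ℝ) (η : ℝ) :
    rel (pt u) (lB η) = u 0 + 2 * u 2 * η - u 1 * η ^ 2 := by
  simp [rel, pt, lB]
  ring

/-- the key fact -/
lemma fact (p i j k l : ℕ) (hi : 1 ≤ i) (hip : i + 1 ≤ p) (hk : 1 ≤ k) (hkp : k ≤ p) :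
    0 < ((i : ℝ) + 1 / 2 - k) ^ 2 + (2 * p * KK p ^ j * (KK p ^ l)⁻¹) ^ 2
      - 2 * ((i : ℝ) + 1 / 2) * (2 * p * KK p ^ j * (KK p ^ l)⁻¹) := by
  have hp : (2 : ℝ) ≤ p := by
    have : 2 ≤ p := by omega
    exact_mod_cast this
  have hK : (128 : ℝ) ≤ KK p := by
    unfold KK
    nlinarith
  have hK0 : (0 : ℝ) < KK p := by linarith
  have hip' : (i : ℝ) + 1 ≤ p := by exact_mod_cast hip
  have hi' : (1 : ℝ) ≤ i := by exact_mod_cast hi
  have hk' : (1 : ℝ) ≤ k := by exact_mod_cast hk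
  have hkp' : (k : ℝ) ≤ p := by exact_mod_cast hkp
  set b : ℝ := 2 * p * KK p ^ j * (KK p ^ l)⁻¹ with hb
  set y : ℝ := (i : ℝ) + 1 / 2 with hy
  have key : 2 * k * b < (y - k - b) ^ 2 := by
    rcases le_or_gt l j with hlj | hlj
    · have h1 : 2 * (p : ℝ) ≤ b := by
        have h2 : KK p ^ j * (KK p ^ l)⁻¹ = KK p ^ (j - l) := by
          rw [← div_eq_mul_inv, pow_sub₀ _ hK0.ne' hlj, div_eq_mul_inv]
        have h3 : b = 2 * p * KK p ^ (j - l) := by
          rw [hb, mul_assoc (2 * (p : ℝ)), h2]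
        rw [h3]
        have h4 : (1 : ℝ) ≤ KK p ^ (j - l) := one_le_pow₀ (by linarith)
        nlinarith
      have h5 : b / 2 + k < b + k - y := by linarith
      have h6 : 0 < b / 2 + k := by positivity
      nlinarith [sq_nonneg (b / 2 - k)]
    · have hbpos : 0 < b := by positivity
      have h1 : b * (16 * p) ≤ 1 := by
        have h2 : KK p ^ j * (KK p ^ l)⁻¹ = (KK p ^ (l - j))⁻¹ := by
          rw [pow_sub₀ _ hK0.ne' hlj.le, mul_inv, inv_inv, mul_comm]
        have h3 : b = 2 * p * (KK p ^ (l - j))⁻¹ := by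
          rw [hb, mul_assoc (2 * (p : ℝ)), h2]
        have h4 : KK p ≤ KK p ^ (l - j) := by
          have : KK p ^ 1 ≤ KK p ^ (l - j) := pow_le_pow_right₀ (by linarith) (by omega)
          simpa using this
        have h5 : (KK p ^ (l - j))⁻¹ ≤ (KK p)⁻¹ := inv_anti₀ hK0 h4
        have h6 : b ≤ 2 * p * (KK p)⁻¹ := by
          rw [h3]
          exact mul_le_mul_of_nonneg_left h5 (by positivity)
        calc b * (16 * p) ≤ 2 * p * (KK p)⁻¹ * (16 * p) :=
              mul_le_mul_of_nonneg_right h6 (by positivity)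
          _ = 1 := by
              unfold KK
              field_simp
              norm_num
      have h7 : b ≤ 1 / 32 := by nlinarith
      have h8 : 2 * k * b ≤ 1 / 8 := by nlinarith
      have h9 : 1 / 2 ≤ |y - k| := by
        rcases le_or_gt k i with hki | hki
        · have : (k : ℝ) ≤ i := by exact_mod_cast hki
          rw [abs_of_nonneg (by linarith)]
          linarith
        · have : (i : ℝ) + 1 ≤ k := by exact_mod_cast hki
          rw [abs_of_nonpos (by linarith)]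
          linarith
      rcases le_abs.1 h9 with h10 | h10
      · nlinarith
      · nlinarith
  nlinarith

end InAux

open InAux in
theorem inn : S_IN := by
  intro p m i j hi hip hjm
  have hp : (2 : ℝ) ≤ p := by
    have : 2 ≤ p := by omega
    exact_mod_cast this
  have hK : (128 : ℝ) ≤ KK p := by
    unfold KK
    nlinarith
  have hK0 : (0 : ℝ) < KK p := by linarith
  have hip' : (i : ℝ) + 1 ≤ p := by exact_mod_cast hip
  have hi' : (1 : ℝ) ≤ i := by exact_mod_cast hi
  set y : ℝ := (i : ℝ) + 1 / 2 with hy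
  set t : ℝ := 2 * p * KK p ^ j with ht
  have hKj : (1 : ℝ) ≤ KK p ^ j := one_le_pow₀ (by linarith)
  have ht0 : 0 < t := by positivity
  have ht1 : 1 ≤ t := by nlinarith
  have hlohi : ∀ x ∈ (Finset.Icc 1 p).image (fun k : ℕ => -(y - k) ^ 2 / t),
      ∀ z ∈ (Finset.range m).image (fun l : ℕ => t * ((KK p ^ l)⁻¹) ^ 2 - 2 * y * (KK p ^ l)⁻¹),
        x < z := by
    intro x hx z hz
    rw [Finset.mem_image] at hx hz
    obtain ⟨k, hk, rfl⟩ := hx
    obtain ⟨l, hl, rfl⟩ := hz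
    rw [Finset.mem_Icc] at hk
    have h1 := fact p i j k l hi hip hk.1 hk.2
    rw [← ht, ← hy] at h1
    rw [div_lt_iff₀ ht0]
    nlinarith
  obtain ⟨s, hs1, hs2⟩ := Order.exists_between_finsets _ _ hlohi
  have hs1' : ∀ k : ℕ, 1 ≤ k → k ≤ p → -(y - k) ^ 2 / t < s := by
    intro k hk hkp
    exact hs1 _ (Finset.mem_image.2 ⟨k, Finset.mem_Icc.2 ⟨hk, hkp⟩, rfl⟩)
  have hs2' : ∀ l : ℕ, l < m → s < t * ((KK p ^ l)⁻¹) ^ 2 - 2 * y * (KK p ^ l)⁻¹ := by
    intro l hl
    exact hs2 _ (Finset.mem_image.2 ⟨l, Finset.mem_range.2 hl, rfl⟩)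
  have hKm : (1 : ℝ) ≤ KK p ^ m := one_le_pow₀ (by linarith)
  have hS : 2 * (p : ℝ) ^ 2 + 2 ≤ SS p m := by
    unfold SS
    linarith
  refine ⟨![s, t, y, 0], ?_, ?_, ?_⟩
  · refine ⟨?_, ?_, ?_, ?_, ?_, ?_⟩
    · show |s| < SS p m
      rw [abs_lt]
      constructor
      · have h1 := hs1' 1 le_rfl (by omega)
        have h2 : -(y - 1) ^ 2 ≤ -(y - (1 : ℕ)) ^ 2 / t := by
          rw [le_div_iff₀ ht0]
          push_cast
          nlinarith [sq_nonneg (y - 1)]
        have h3 : (y - 1) ^ 2 ≤ (p : ℝ) ^ 2 := by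
          apply pow_le_pow_left₀ <;> linarith
        nlinarith
      · have h1 := hs2' (j + 1) hjm
        have h2 : t * ((KK p ^ (j + 1))⁻¹) ^ 2 ≤ 1 := by
          have h4 : t ≤ KK p ^ (j + 1) := by
            rw [pow_succ, ht]
            have : 2 * (p : ℝ) ≤ KK p := by unfold KK; nlinarith
            nlinarith
          have h5 : 1 ≤ KK p ^ (j + 1) := one_le_pow₀ (by linarith)
          have h6 : (KK p ^ (j + 1))⁻¹ ≤ 1 := inv_le_one_of_one_le₀ h5
          have h7 : 0 < (KK p ^ (j + 1))⁻¹ := by positivity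
          have h8 : t * (KK p ^ (j + 1))⁻¹ ≤ 1 := by
            rw [← div_eq_mul_inv, div_le_one (by positivity)]
            exact h4
          nlinarith
        have h3 : 0 < 2 * y * (KK p ^ (j + 1))⁻¹ := by positivity
        nlinarith
    · show KK p ^ j / 2 < t
      nlinarith
    · show t < KK p ^ (j + 1) / 2
      rw [pow_succ, ht]
      unfold KK
      have h1 : (0 : ℝ) < (32 * (p : ℝ) ^ 2) ^ j := by positivity
      have h2 : 2 * (p : ℝ) < 32 * (p : ℝ) ^ 2 / 2 := by nlinarith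
      nlinarith
    · show (i : ℝ) < y
      linarith
    · show y < (i : ℝ) + 1
      linarith
    · show |(0 : ℝ)| < SS p m
      rw [abs_zero]
      nlinarith [sq_nonneg (p : ℝ)]
  · intro k hk hkp
    rw [rel_lA]
    have h1 := hs1' k hk hkp
    rw [div_lt_iff₀ ht0] at h1
    show (0 : ℝ) ^ 2 - s * t - (y - k) ^ 2 < 0
    linarith
  · intro l hl
    rw [rel_lB]
    have h1 := hs2' l hl
    show s + 2 * y * (KK p ^ l)⁻¹ - t * ((KK p ^ l)⁻¹) ^ 2 < 0
    linarith

end Pool.Agent.R90.IC
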