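import Pool.Agent.R90.IC.Defs

/-!
# OP: stability of the hypotheses of TOP under small changes of the lines
-/

open Set Topology Filter

namespace Pool.Agent.R90.IC

namespace OPaux

lemma cont_rel {n : ℕ} (i : Fin n) :
    Continuous fun q : (Fin n → P5) × (Fin 4 → ℝ) => rel (pt q.2) (q.1 i) := by
  have hL : ∀ k : Fin 6, Continuous fun q : (Fin n → P5) × (Fin 4 → ℝ) => (q.1 i) k := by
    intro k
    exact (EuclideanSpace.proj (𝕜 := ℝ) k).continuous.comp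
      ((continuous_apply i).comp continuous_fst)
  have hu : ∀ k : Fin 4, Continuous fun q : (Fin n → P5) × (Fin 4 → ℝ) => q.2 k := by
    intro k
    exact (continuous_apply k).comp continuous_snd
  have e : (fun q : (Fin n → P5) × (Fin 4 → ℝ) => rel (pt q.2) (q.1 i)) =
      fun q => (q.1 i) 5 + q.2 0 * (q.1 i) 4 + (q.2 2 - q.2 3) * (q.1 i) 3 +
        (q.2 2 + q.2 3) * (q.1 i) 2 - q.2 1 * (q.1 i) 1 +
        (-(q.2 0 * q.2 1 + q.2 2 ^ 2 - q.2 3 ^ 2)) * (q.1 i) 0 := by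
    funext q
    simp [rel, pt]
  rw [e]
  exact (((((hL 5).add ((hu 0).mul (hL 4))).add (((hu 2).sub (hu 3)).mul (hL 3))).add
    (((hu 2).add (hu 3)).mul (hL 2))).sub ((hu 1).mul (hL 1))).add
    (((((hu 0).mul (hu 1)).add ((hu 2).pow 2)).sub ((hu 3).pow 2)).neg.mul (hL 0))

lemma cbox_eq (S t₁ t₂ y₁ y₂ : ℝ) :
    cbox S t₁ t₂ y₁ y₂ = Icc ![-S, t₁, y₁, -S] ![S, t₂, y₂, S] := by
  ext u
  simp only [cbox, mem_ofPred_eq, mem_Icc, Pi.le_def, Fin.forall_fin_succ, abs_le]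
  simp
  tauto

lemma cbox_compact (S t₁ t₂ y₁ y₂ : ℝ) : IsCompact (cbox S t₁ t₂ y₁ y₂) := by
  rw [cbox_eq]
  exact isCompact_Icc

lemma obox_open (S t₁ t₂ y₁ y₂ : ℝ) : IsOpen (obox S t₁ t₂ y₁ y₂) := by
  have h : ∀ k : Fin 4, Continuous fun u : Fin 4 → ℝ => u k := fun k => continuous_apply k
  exact (isOpen_lt (h 0).abs continuous_const).inter
    ((isOpen_lt continuous_const (h 1)).inter ((isOpen_lt (h 1) continuous_const).inter
      ((isOpen_lt continuous_const (h 2)).inter ((isOpen_lt (h 2) continuous_const).inter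
        (isOpen_lt (h 3).abs continuous_const)))))

end OPaux

open OPaux in
/-- OP -/
theorem op : S_OP := by
  intro n L₀ S t₁ t₂ y₁ y₂ h1 h2
  obtain ⟨u, hu, hneg⟩ := h1
  have A : ∀ᶠ L in 𝓝 L₀, ∀ i, rel (pt u) (L i) < 0 := by
    rw [eventually_all]
    intro i
    have hp : Continuous fun L : Fin n → P5 => ((L, u) : (Fin n → P5) × (Fin 4 → ℝ)) :=
      Continuous.prodMk continuous_id continuous_const
    have hc := (cont_rel (n := n) i).comp hp
    simp only [Function.comp_def] at hc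
    have ho : IsOpen {L : Fin n → P5 | rel (pt u) (L i) < 0} := isOpen_lt hc continuous_const
    exact ho.mem_nhds (hneg i)
  have hK : IsCompact (cbox S t₁ t₂ y₁ y₂ \ obox S t₁ t₂ y₁ y₂) :=
    (cbox_compact S t₁ t₂ y₁ y₂).diff (obox_open S t₁ t₂ y₁ y₂)
  have B : ∀ᶠ L in 𝓝 L₀, ∀ v ∈ cbox S t₁ t₂ y₁ y₂ \ obox S t₁ t₂ y₁ y₂,
      ∃ i, 0 < rel (pt v) (L i) := by
    refine hK.eventually_forall_of_forall_eventually
      (P := fun (L : Fin n → P5) (v : Fin 4 → ℝ) => ∃ i, 0 < rel (pt v) (L i)) ?_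
    intro v hv
    obtain ⟨i, hi⟩ := h2 v hv.1 hv.2
    have ho : IsOpen {q : (Fin n → P5) × (Fin 4 → ℝ) | 0 < rel (pt q.2) (q.1 i)} :=
      isOpen_lt continuous_const (cont_rel i)
    have h3 : {q : (Fin n → P5) × (Fin 4 → ℝ) | 0 < rel (pt q.2) (q.1 i)} ∈ 𝓝 (L₀, v) :=
      ho.mem_nhds hi
    filter_upwards [h3] with q hq
    exact ⟨i, hq⟩
  filter_upwards [A, B] with L hA hB
  exact ⟨⟨u, hu, hA⟩, fun v hv hv' => hB v ⟨hv, hv'⟩⟩

end Pool.Agent.R90.IC
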