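import Pool.Agent.R90.IC.Defs

set_option autoImplicit false

open Set Topology

namespace Pool.Agent.R90.IC

namespace TopAux

/-- affine coordinates -/
noncomputable def uu (x : P5) : Fin 4 → ℝ :=
  ![-(x 1) / x 0, x 4 / x 0, (x 2 + x 3) / 2 / x 0, (x 3 - x 2) / 2 / x 0]

lemma uu0 (x : P5) : uu x 0 = -(x 1) / x 0 := rfl
lemma uu1 (x : P5) : uu x 1 = x 4 / x 0 := rfl
lemma uu2 (x : P5) : uu x 2 = (x 2 + x 3) / 2 / x 0 := rfl
lemma uu3 (x : P5) : uu x 3 = (x 3 - x 2) / 2 / x 0 := rfl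

lemma pt0 (u : Fin 4 → ℝ) : pt u 0 = 1 := rfl
lemma pt1 (u : Fin 4 → ℝ) : pt u 1 = -(u 0) := rfl
lemma pt2 (u : Fin 4 → ℝ) : pt u 2 = u 2 - u 3 := rfl
lemma pt3 (u : Fin 4 → ℝ) : pt u 3 = u 2 + u 3 := rfl
lemma pt4 (u : Fin 4 → ℝ) : pt u 4 = u 1 := rfl
lemma pt5 (u : Fin 4 → ℝ) : pt u 5 = -(u 0 * u 1 + u 2 ^ 2 - u 3 ^ 2) := rfl

lemma rel_smul (c : ℝ) (x y : P5) : rel (c • x) y = c * rel x y := by
  simp only [rel, PiLp.smul_apply, smul_eq_mul]
  ring

lemma kl_smul (c : ℝ) (x : P5) : kl (c • x) = c ^ 2 * kl x := by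
  simp only [kl, PiLp.smul_apply, smul_eq_mul]
  ring

lemma kl_pt (u : Fin 4 → ℝ) : kl (pt u) = 0 := by
  simp only [kl, pt0, pt1, pt2, pt3, pt4, pt5]
  ring

lemma ext6 {x y : P5} (h0 : x 0 = y 0) (h1 : x 1 = y 1) (h2 : x 2 = y 2) (h3 : x 3 = y 3)
    (h4 : x 4 = y 4) (h5 : x 5 = y 5) : x = y := by
  ext i
  fin_cases i
  · exact h0
  · exact h1
  · exact h2
  · exact h3
  · exact h4
  · exact h5

lemma eq_smul {x : P5} (hx : 0 < x 0) (hk : kl x = 0) : x = x 0 • pt (uu x) := by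
  have hne := hx.ne'
  apply ext6 <;> rw [PiLp.smul_apply, smul_eq_mul]
  · rw [pt0, mul_one]
  · rw [pt1, uu0]; field_simp
  · rw [pt2, uu2, uu3]; field_simp; ring
  · rw [pt3, uu2, uu3]; field_simp; ring
  · rw [pt4, uu1]; field_simp
  · rw [pt5, uu0, uu1, uu2, uu3]
    have h5 : x 5 = (x 1 * x 4 - x 3 * x 2) / x 0 := by
      rw [eq_div_iff hne]
      unfold kl at hk
      linarith
    rw [h5]
    field_simp
    ring

lemma uu_smul {c : ℝ} (hc : 0 < c) (u : Fin 4 → ℝ) : uu (c • pt u) = u := by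
  have hne := hc.ne'
  ext i
  fin_cases i
  · change uu (c • pt u) 0 = u 0
    rw [uu0]; simp only [PiLp.smul_apply, smul_eq_mul, pt0, pt1]; field_simp
  · change uu (c • pt u) 1 = u 1
    rw [uu1]; simp only [PiLp.smul_apply, smul_eq_mul, pt0, pt4]; field_simp
  · change uu (c • pt u) 2 = u 2
    rw [uu2]; simp only [PiLp.smul_apply, smul_eq_mul, pt0, pt2, pt3]; field_simp; ring
  · change uu (c • pt u) 3 = u 3
    rw [uu3]; simp only [PiLp.smul_apply, smul_eq_mul, pt0, pt2, pt3]; field_simp; ring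

lemma obox_iff {x : P5} (hx : 0 < x 0) (S t₁ t₂ y₁ y₂ : ℝ) :
    uu x ∈ obox S t₁ t₂ y₁ y₂ ↔ (|x 1| < S * x 0 ∧ t₁ * x 0 < x 4 ∧ x 4 < t₂ * x 0 ∧
      y₁ * x 0 < (x 2 + x 3) / 2 ∧ (x 2 + x 3) / 2 < y₂ * x 0 ∧ |(x 3 - x 2) / 2| < S * x 0) := by
  simp only [obox, Set.mem_setOf_eq, uu0, uu1, uu2, uu3, abs_div, abs_neg, abs_of_pos hx,
    div_lt_iff₀ hx, lt_div_iff₀ hx]

lemma cbox_iff {x : P5} (hx : 0 < x 0) (S t₁ t₂ y₁ y₂ : ℝ) :
    uu x ∈ cbox S t₁ t₂ y₁ y₂ ↔ (|x 1| ≤ S * x 0 ∧ t₁ * x 0 ≤ x 4 ∧ x 4 ≤ t₂ * x 0 ∧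
      y₁ * x 0 ≤ (x 2 + x 3) / 2 ∧ (x 2 + x 3) / 2 ≤ y₂ * x 0 ∧ |(x 3 - x 2) / 2| ≤ S * x 0) := by
  simp only [cbox, Set.mem_setOf_eq, uu0, uu1, uu2, uu3, abs_div, abs_neg, abs_of_pos hx,
    div_le_iff₀ hx, le_div_iff₀ hx]

lemma bound5 {u : Fin 4 → ℝ} {S t₁ t₂ y₁ y₂ : ℝ} (h : u ∈ cbox S t₁ t₂ y₁ y₂) :
    |pt u 5| ≤ S * (|t₁| + |t₂|) + (|y₁| + |y₂|) ^ 2 + S ^ 2 := by
  obtain ⟨h1, h2, h3, h4, h5, h6⟩ := h
  have hS : 0 ≤ S := (abs_nonneg _).trans h1
  have ht : |u 1| ≤ |t₁| + |t₂| := by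
    rw [abs_le]
    constructor
    · linarith [neg_abs_le t₁, abs_nonneg t₂]
    · linarith [le_abs_self t₂, abs_nonneg t₁]
  have hy : |u 2| ≤ |y₁| + |y₂| := by
    rw [abs_le]
    constructor
    · linarith [neg_abs_le y₁, abs_nonneg y₂]
    · linarith [le_abs_self y₂, abs_nonneg y₁]
  have a1 : |u 0 * u 1| ≤ S * (|t₁| + |t₂|) := by
    rw [abs_mul]
    exact mul_le_mul h1 ht (abs_nonneg _) hS
  have a2 : u 2 ^ 2 ≤ (|y₁| + |y₂|) ^ 2 := by
    rw [← sq_abs (u 2)]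
    exact pow_le_pow_left₀ (abs_nonneg _) hy 2
  have a3 : u 3 ^ 2 ≤ S ^ 2 := by
    rw [← sq_abs (u 3)]
    exact pow_le_pow_left₀ (abs_nonneg _) h6 2
  have b2 : 0 ≤ u 2 ^ 2 := sq_nonneg _
  have b3 : 0 ≤ u 3 ^ 2 := sq_nonneg _
  rw [pt5, abs_le]
  rw [abs_le] at a1
  constructor <;> nlinarith [a1.1, a1.2]

end TopAux

open TopAux in
theorem top_lem : S_TOP := by
  intro ι L κ _ S t₁ t₂ y₁ y₂ hdisj hin hbd
  set Z : Set P5 := cls L (fun _ => -1) with hZ
  let O : κ → Set Z := fun a => {x | 0 < x.1 0 ∧ uu x.1 ∈ obox (S a) (t₁ a) (t₂ a) (y₁ a) (y₂ a)}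
  have hcoord : ∀ i : Fin 6, Continuous (fun x : Z => x.1 i) := by
    intro i
    exact (EuclideanSpace.proj i : P5 →L[ℝ] ℝ).continuous.comp continuous_subtype_val
  have hopen : ∀ a, IsOpen (O a) := by
    intro a
    have : O a = {x : Z | 0 < x.1 0 ∧ |x.1 1| < S a * x.1 0 ∧ t₁ a * x.1 0 < x.1 4 ∧
        x.1 4 < t₂ a * x.1 0 ∧ y₁ a * x.1 0 < (x.1 2 + x.1 3) / 2 ∧
        (x.1 2 + x.1 3) / 2 < y₂ a * x.1 0 ∧ |(x.1 3 - x.1 2) / 2| < S a * x.1 0} := by
      ext x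
      constructor
      · rintro ⟨h0, h1⟩
        exact ⟨h0, (obox_iff h0 _ _ _ _ _).1 h1⟩
      · rintro ⟨h0, h1⟩
        exact ⟨h0, (obox_iff h0 _ _ _ _ _).2 h1⟩
    rw [this]
    have c0 := hcoord 0
    have c1 := hcoord 1
    have c2 := hcoord 2
    have c3 := hcoord 3
    have c4 := hcoord 4
    refine (isOpen_lt continuous_const c0).inter ((isOpen_lt c1.abs (continuous_const.mul c0)).inter
      ((isOpen_lt (continuous_const.mul c0) c4).inter ((isOpen_lt c4 (continuous_const.mul c0)).inter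
      ((isOpen_lt (continuous_const.mul c0) ((c2.add c3).div_const 2)).inter
      ((isOpen_lt ((c2.add c3).div_const 2) (continuous_const.mul c0)).inter
      (isOpen_lt ((c3.sub c2).div_const 2).abs (continuous_const.mul c0)))))))
  have hclosed : ∀ a, IsClosed (O a) := by
    intro a
    set M : ℝ := S a * (|t₁ a| + |t₂ a|) + (|y₁ a| + |y₂ a|) ^ 2 + S a ^ 2 with hM
    have : O a = {x : Z | 0 ≤ x.1 0 ∧ |x.1 1| ≤ S a * x.1 0 ∧ t₁ a * x.1 0 ≤ x.1 4 ∧
        x.1 4 ≤ t₂ a * x.1 0 ∧ y₁ a * x.1 0 ≤ (x.1 2 + x.1 3) / 2 ∧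
        (x.1 2 + x.1 3) / 2 ≤ y₂ a * x.1 0 ∧ |(x.1 3 - x.1 2) / 2| ≤ S a * x.1 0 ∧
        |x.1 5| ≤ M * x.1 0} := by
      ext x
      obtain ⟨x, hxn, hxk, hxs⟩ := x
      constructor
      · rintro ⟨h0, h1⟩
        change 0 < x 0 at h0
        have hc : uu x ∈ cbox (S a) (t₁ a) (t₂ a) (y₁ a) (y₂ a) :=
          ⟨h1.1.le, h1.2.1.le, h1.2.2.1.le, h1.2.2.2.1.le, h1.2.2.2.2.1.le, h1.2.2.2.2.2.le⟩
        have h2 := (cbox_iff h0 _ _ _ _ _).1 hc
        refine ⟨h0.le, h2.1, h2.2.1, h2.2.2.1, h2.2.2.2.1, h2.2.2.2.2.1, h2.2.2.2.2.2, ?_⟩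
        have h5 : x 5 = x 0 * pt (uu x) 5 := by
          have := congrArg (fun z : P5 => z 5) (eq_smul h0 hxk)
          simpa only [PiLp.smul_apply, smul_eq_mul] using this
        change |x 5| ≤ M * x 0
        rw [h5, abs_mul, abs_of_pos h0, mul_comm]
        exact mul_le_mul_of_nonneg_right (bound5 hc) h0.le
      · rintro ⟨h0, h1, h2, h3, h4, h5, h6, h7⟩
        change 0 ≤ x 0 at h0
        change |x 1| ≤ S a * x 0 at h1
        change t₁ a * x 0 ≤ x 4 at h2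
        change x 4 ≤ t₂ a * x 0 at h3
        change y₁ a * x 0 ≤ (x 2 + x 3) / 2 at h4
        change (x 2 + x 3) / 2 ≤ y₂ a * x 0 at h5
        change |(x 3 - x 2) / 2| ≤ S a * x 0 at h6
        change |x 5| ≤ M * x 0 at h7
        have hpos : 0 < x 0 := by
          rcases h0.lt_or_eq with h | h
          · exact h
          · exfalso
            rw [← h, mul_zero] at h1 h2 h3 h4 h5 h6 h7
            have e1 : x 1 = 0 := abs_eq_zero.1 (le_antisymm h1 (abs_nonneg _))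
            have e6 : (x 3 - x 2) / 2 = 0 := abs_eq_zero.1 (le_antisymm h6 (abs_nonneg _))
            have e5 : x 5 = 0 := abs_eq_zero.1 (le_antisymm h7 (abs_nonneg _))
            have hx0 : x = 0 := by
              apply ext6 <;> simp only [PiLp.zero_apply]
              · exact h.symm
              · exact e1
              · linarith
              · linarith
              · linarith
              · exact e5
            rw [hx0, norm_zero] at hxn
            exact zero_ne_one hxn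
        have hc : uu x ∈ cbox (S a) (t₁ a) (t₂ a) (y₁ a) (y₂ a) :=
          (cbox_iff hpos _ _ _ _ _).2 ⟨h1, h2, h3, h4, h5, h6⟩
        refine ⟨hpos, ?_⟩
        change uu x ∈ obox (S a) (t₁ a) (t₂ a) (y₁ a) (y₂ a)
        by_contra hno
        obtain ⟨i, hi⟩ := hbd a _ hc hno
        have h8 := sign_eq_neg_one_iff.1 (hxs i)
        rw [eq_smul hpos hxk, rel_smul] at h8
        have h9 : 0 < x 0 * rel (pt (uu x)) (L i) := mul_pos hpos hi
        linarith
    rw [this]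
    have c0 := hcoord 0
    have c1 := hcoord 1
    have c2 := hcoord 2
    have c3 := hcoord 3
    have c4 := hcoord 4
    have c5 := hcoord 5
    refine (isClosed_le continuous_const c0).inter ((isClosed_le c1.abs (continuous_const.mul c0)).inter
      ((isClosed_le (continuous_const.mul c0) c4).inter ((isClosed_le c4 (continuous_const.mul c0)).inter
      ((isClosed_le (continuous_const.mul c0) ((c2.add c3).div_const 2)).inter
      ((isClosed_le ((c2.add c3).div_const 2) (continuous_const.mul c0)).inter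
      ((isClosed_le ((c3.sub c2).div_const 2).abs (continuous_const.mul c0)).inter
      (isClosed_le c5.abs (continuous_const.mul c0))))))))
  have hne : ∀ a, (O a).Nonempty := by
    intro a
    obtain ⟨u, hu, hneg⟩ := hin a
    have hp0 : pt u ≠ 0 := by
      intro h
      have := congrArg (fun z : P5 => z 0) h
      simp only [pt0, PiLp.zero_apply] at this
      exact one_ne_zero this
    have hc : 0 < ‖pt u‖⁻¹ := inv_pos.2 (norm_pos_iff.2 hp0)
    have hmem : (‖pt u‖⁻¹ • pt u) ∈ Z := by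
      refine ⟨?_, ?_, ?_⟩
      · rw [norm_smul, norm_inv, norm_norm, inv_mul_cancel₀ (norm_ne_zero_iff.2 hp0)]
      · rw [kl_smul, kl_pt, mul_zero]
      · intro i
        rw [sign_eq_neg_one_iff, rel_smul]
        exact mul_neg_of_pos_of_neg hc (hneg i)
    refine ⟨⟨_, hmem⟩, ?_, ?_⟩
    · change 0 < (‖pt u‖⁻¹ • pt u) 0
      rw [PiLp.smul_apply, smul_eq_mul, pt0, mul_one]
      exact hc
    · change uu (‖pt u‖⁻¹ • pt u) ∈ _
      rw [uu_smul hc]
      exact hu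
  choose z hz using hne
  have hinj : Function.Injective (fun a : κ => (ConnectedComponents.mk (z a) :
      ConnectedComponents Z)) := by
    intro a b hab
    by_contra hne
    have h1 : connectedComponent (z a) = connectedComponent (z b) :=
      ConnectedComponents.coe_eq_coe.1 hab
    have h2 : z b ∈ connectedComponent (z a) := h1 ▸ mem_connectedComponent
    have h3 : z b ∈ O a := IsClopen.connectedComponent_subset ⟨hclosed a, hopen a⟩ (hz a) h2
    exact Set.disjoint_left.1 (hdisj hne) h3.2 (hz b).2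
  rw [← ENat.card_eq_coe_fintype_card]
  exact ENat.card_le_card_of_injective hinj

end Pool.Agent.R90.IC
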